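import Pool.Agent.H67.AT.Targets
import Pool.Agent.H67.AT.Ser

/-!
# Part B (MP_81fcf0_co), row NET: the matrices of a net
-/

set_option autoImplicit false
set_option linter.unusedSectionVars false

open Finset PowerSeries Pool.Agent.H67.AT

namespace Pool.Agent.H86.AT.NET

section

variable {X E Y : Type} [Fintype X] [DecidableEq X] [Fintype E] [Fintype Y] [DecidableEq Y]
  (G : Net X E Y)

theorem lt_sum (o : Option Y) (c : ℝ) (hc : 0 ≤ c) (p : Prop) [Decidable p] :
    ∑ y, (if p ∧ o = some y then c else 0) ≤ if p then c else 0 := by
  by_cases hp : p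
  · rw [if_pos hp]
    cases o with
    | none => simp [hc]
    | some y =>
      have h1 : ∀ y' : Y, (if p ∧ (some y : Option Y) = some y' then c else 0) =
          if y = y' then c else 0 := by
        intro y'
        by_cases h2 : y = y'
        · rw [if_pos ⟨hp, by rw [h2]⟩, if_pos h2]
        · rw [if_neg (fun h3 => h2 (Option.some.inj h3.2)), if_neg h2]
      simp only [h1]
      rw [Finset.sum_ite_eq, if_pos (Finset.mem_univ _)]
  · rw [if_neg hp]
    exact le_of_eq (Finset.sum_eq_zero fun y _ => if_neg fun h => hp h.1)

theorem up_eq (t : ℕ) (x : X) (y : Y) :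
    ∑ z, (G.P ^ t * Mm G y) x z =
      ∑ e, if G.lt e = some y then (G.P ^ t) x (G.src e) * G.wt e else 0 := by
  have h1 : ∀ z, (G.P ^ t * Mm G y) x z = ∑ e, ∑ u, (if G.src e = u ∧ G.tgt e = z ∧
      G.lt e = some y then (G.P ^ t) x u * G.wt e else 0) := by
    intro z
    rw [Matrix.mul_apply, Finset.sum_comm]
    refine Finset.sum_congr rfl fun u _ => ?_
    unfold Mm
    rw [Matrix.of_apply, Finset.mul_sum]
    refine Finset.sum_congr rfl fun e _ => ?_
    rw [mul_ite, mul_zero]
  simp only [h1]
  rw [Finset.sum_comm]
  refine Finset.sum_congr rfl fun e _ => ?_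
  have h2 : ∀ z, ∑ u, (if G.src e = u ∧ G.tgt e = z ∧
      G.lt e = some y then (G.P ^ t) x u * G.wt e else 0) =
      if G.tgt e = z then (if G.lt e = some y then (G.P ^ t) x (G.src e) * G.wt e else 0)
        else 0 := by
    intro z
    by_cases hz : G.tgt e = z
    · by_cases hy : G.lt e = some y
      · rw [if_pos hz, if_pos hy]
        have h3 : ∀ u, (if G.src e = u ∧ G.tgt e = z ∧
            G.lt e = some y then (G.P ^ t) x u * G.wt e else 0) =
            if G.src e = u then (G.P ^ t) x u * G.wt e else 0 := by
          intro u
          by_cases hu : G.src e = u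
          · rw [if_pos ⟨hu, hz, hy⟩, if_pos hu]
          · rw [if_neg (fun h => hu h.1), if_neg hu]
        simp only [h3]
        rw [Finset.sum_ite_eq, if_pos (Finset.mem_univ _)]
      · rw [if_pos hz, if_neg hy]
        exact Finset.sum_eq_zero fun u _ => if_neg fun h => hy h.2.2
    · rw [if_neg hz]
      exact Finset.sum_eq_zero fun u _ => if_neg fun h => hz h.2.1
  simp only [h2]
  rw [Finset.sum_ite_eq, if_pos (Finset.mem_univ _)]

theorem um_eq (t : ℕ) (x : X) (y : Y) :
    ∑ z, (Mm G y * G.P ^ t) z x =
      ∑ e, if G.lt e = some y then G.wt e * (G.P ^ t) (G.tgt e) x else 0 := by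
  have h1 : ∀ z, (Mm G y * G.P ^ t) z x = ∑ e, ∑ u, (if G.src e = z ∧ G.tgt e = u ∧
      G.lt e = some y then G.wt e * (G.P ^ t) u x else 0) := by
    intro z
    rw [Matrix.mul_apply, Finset.sum_comm]
    refine Finset.sum_congr rfl fun u _ => ?_
    unfold Mm
    rw [Matrix.of_apply, Finset.sum_mul]
    refine Finset.sum_congr rfl fun e _ => ?_
    rw [ite_mul, zero_mul]
  simp only [h1]
  rw [Finset.sum_comm]
  refine Finset.sum_congr rfl fun e _ => ?_
  have h2 : ∀ z, ∑ u, (if G.src e = z ∧ G.tgt e = u ∧
      G.lt e = some y then G.wt e * (G.P ^ t) u x else 0) =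
      if G.src e = z then (if G.lt e = some y then G.wt e * (G.P ^ t) (G.tgt e) x else 0)
        else 0 := by
    intro z
    by_cases hz : G.src e = z
    · by_cases hy : G.lt e = some y
      · rw [if_pos hz, if_pos hy]
        have h3 : ∀ u, (if G.src e = z ∧ G.tgt e = u ∧
            G.lt e = some y then G.wt e * (G.P ^ t) u x else 0) =
            if G.tgt e = u then G.wt e * (G.P ^ t) u x else 0 := by
          intro u
          by_cases hu : G.tgt e = u
          · rw [if_pos ⟨hz, hu, hy⟩, if_pos hu]
          · rw [if_neg (fun h => hu h.2.1), if_neg hu]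
        simp only [h3]
        rw [Finset.sum_ite_eq, if_pos (Finset.mem_univ _)]
      · rw [if_pos hz, if_neg hy]
        exact Finset.sum_eq_zero fun u _ => if_neg fun h => hy h.2.2
    · rw [if_neg hz]
      exact Finset.sum_eq_zero fun u _ => if_neg fun h => hz h.1
  simp only [h2]
  rw [Finset.sum_ite_eq, if_pos (Finset.mem_univ _)]

end

theorem pf_NET : T_NET := by
  intro X E Y _ _ _ _ _ _ G n κ hup hum
  exact
    { nn := by
        intro x z
        unfold Net.P
        rw [Matrix.of_apply]
        refine Finset.sum_nonneg fun e _ => ?_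
        split_ifs
        · exact G.nonneg e
        · exact le_rfl
      row := by
        intro x
        refine le_trans (le_of_eq ?_) (G.out_le x)
        unfold Net.P
        simp only [Matrix.of_apply]
        rw [Finset.sum_comm]
        refine Finset.sum_congr rfl fun e _ => ?_
        by_cases hx : G.src e = x
        · rw [if_pos hx]
          have h3 : ∀ z, (if G.src e = x ∧ G.tgt e = z then G.wt e else 0) =
              if G.tgt e = z then G.wt e else 0 := by
            intro z
            by_cases hz : G.tgt e = z
            · rw [if_pos ⟨hx, hz⟩, if_pos hz]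
            · rw [if_neg (fun h => hz h.2), if_neg hz]
          simp only [h3]
          rw [Finset.sum_ite_eq, if_pos (Finset.mem_univ _)]
        · rw [if_neg hx]
          exact Finset.sum_eq_zero fun z _ => if_neg fun h => hx h.1
      col := by
        intro z
        refine le_trans (le_of_eq ?_) (G.in_le z)
        unfold Net.P
        simp only [Matrix.of_apply]
        rw [Finset.sum_comm]
        refine Finset.sum_congr rfl fun e _ => ?_
        by_cases hz : G.tgt e = z
        · rw [if_pos hz]
          have h3 : ∀ x, (if G.src e = x ∧ G.tgt e = z then G.wt e else 0) =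
              if G.src e = x then G.wt e else 0 := by
            intro x
            by_cases hx : G.src e = x
            · rw [if_pos ⟨hx, hz⟩, if_pos hx]
            · rw [if_neg (fun h => hx h.1), if_neg hx]
          simp only [h3]
          rw [Finset.sum_ite_eq, if_pos (Finset.mem_univ _)]
        · rw [if_neg hz]
          exact Finset.sum_eq_zero fun x _ => if_neg fun h => hz h.2
      mnn := by
        intro y x z
        unfold Mm
        rw [Matrix.of_apply]
        refine Finset.sum_nonneg fun e _ => ?_
        split_ifs
        · exact G.nonneg e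
        · exact le_rfl
      mle := by
        intro x z
        unfold Mm Net.P
        simp only [Matrix.of_apply]
        rw [Finset.sum_comm]
        refine Finset.sum_le_sum fun e _ => ?_
        have h := lt_sum (G.lt e) (G.wt e) (G.nonneg e) (G.src e = x ∧ G.tgt e = z)
        refine le_trans (le_of_eq ?_) h
        refine Finset.sum_congr rfl fun y _ => ?_
        by_cases h1 : G.src e = x ∧ G.tgt e = z ∧ G.lt e = some y
        · rw [if_pos h1, if_pos ⟨⟨h1.1, h1.2.1⟩, h1.2.2⟩]
        · rw [if_neg h1, if_neg fun h2 => h1 ⟨h2.1.1, h2.1.2, h2.2⟩]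
      up := by
        intro x y
        refine le_trans (le_of_eq ?_) (hup x y)
        unfold Net.up
        exact Finset.sum_congr rfl fun t _ => up_eq G t x y
      um := by
        intro x y
        refine le_trans (le_of_eq ?_) (hum x y)
        unfold Net.um
        exact Finset.sum_congr rfl fun t _ => um_eq G t x y }

end Pool.Agent.H86.AT.NET
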