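import Pool.Agent.H67.AT.Targets
import Pool.Agent.H67.AT.Ser

/-!
# Part B (MP_81fcf0_co), row PAR: the choice of the parameters
-/

set_option autoImplicit false

open Finset PowerSeries Pool.Agent.H67.AT

namespace Pool.Agent.H86.AT

theorem eta2_le (m : ℕ) (hm : 1 ≤ m) (ζ β g η : ℝ) (hζ : 0 ≤ ζ) (hβ : β * g = ζ) :
    eta2 m ζ β g η ≤ 256 * (m : ℝ) ^ 2 * η + 544 * (m : ℝ) ^ 2 * ζ := by
  have h1 : (1 : ℝ) ≤ m := by exact_mod_cast hm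
  unfold eta2 eta1
  rw [hβ]
  have h2 : (m : ℝ) ≤ (m : ℝ) ^ 2 := by nlinarith
  have h3 : (m : ℝ) * ζ ≤ (m : ℝ) ^ 2 * ζ := mul_le_mul_of_nonneg_right h2 hζ
  have h4 : ζ ≤ (m : ℝ) ^ 2 * ζ := by
    have : (1 : ℝ) ≤ (m : ℝ) ^ 2 := h1.trans h2
    nlinarith
  nlinarith

theorem iter_le (m : ℕ) (hm : 1 ≤ m) (ζ β g : ℝ) (hζ : 0 ≤ ζ) (hβ : β * g = ζ) (d : ℕ) :
    (eta2 m ζ β g)^[d] 0 ≤ (2 * (1000 * (m : ℝ) ^ 2)) ^ d * ζ := by
  have h1 : (1 : ℝ) ≤ m := by exact_mod_cast hm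
  have h2 : (1 : ℝ) ≤ (m : ℝ) ^ 2 := one_le_pow₀ h1
  induction d with
  | zero =>
    simp only [Function.iterate_zero, id_eq, pow_zero, one_mul]
    exact hζ
  | succ d ih =>
    rw [Function.iterate_succ_apply']
    have h3 := eta2_le m hm ζ β g ((eta2 m ζ β g)^[d] 0) hζ hβ
    have h4 : (1 : ℝ) ≤ (2 * (1000 * (m : ℝ) ^ 2)) ^ d := one_le_pow₀ (by nlinarith)
    have h5 : ζ ≤ (2 * (1000 * (m : ℝ) ^ 2)) ^ d * ζ := by nlinarith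
    have h6 : 256 * (m : ℝ) ^ 2 * ((eta2 m ζ β g)^[d] 0) ≤
        256 * (m : ℝ) ^ 2 * ((2 * (1000 * (m : ℝ) ^ 2)) ^ d * ζ) :=
      mul_le_mul_of_nonneg_left ih (by positivity)
    have h7 : 544 * (m : ℝ) ^ 2 * ζ ≤ 544 * (m : ℝ) ^ 2 * ((2 * (1000 * (m : ℝ) ^ 2)) ^ d * ζ) :=
      mul_le_mul_of_nonneg_left h5 (by positivity)
    have h8 : (0 : ℝ) ≤ (m : ℝ) ^ 2 * ((2 * (1000 * (m : ℝ) ^ 2)) ^ d * ζ) := by positivity
    calc _ ≤ 800 * (m : ℝ) ^ 2 * ((2 * (1000 * (m : ℝ) ^ 2)) ^ d * ζ) := by linarith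
      _ ≤ 2000 * (m : ℝ) ^ 2 * ((2 * (1000 * (m : ℝ) ^ 2)) ^ d * ζ) := by nlinarith
      _ = (2 * (1000 * (m : ℝ) ^ 2)) ^ (d + 1) * ζ := by ring

theorem pf_PAR : T_PAR := by
  intro L D g hg
  set m : ℕ := D + L + 1 with hm
  have hm1 : 1 ≤ m := by omega
  have hmR : (1 : ℝ) ≤ m := by exact_mod_cast hm1
  set B : ℝ := 2 * (1000 * (m : ℝ) ^ 2) with hB
  have hB0 : 0 < B := by positivity
  set ζ : ℝ := 1 / (2 * B ^ (L + 1)) with hζ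
  have hζ0 : 0 < ζ := by positivity
  have hg0 : 0 < g := by linarith
  refine ⟨m, ζ, ζ / g, hm1, hζ0, by positivity, ?_, ?_⟩
  · have h1 := iter_le m hm1 ζ (ζ / g) g hζ0.le (by field_simp) (L + 1)
    have h2 : (2 * (1000 * (m : ℝ) ^ 2)) ^ (L + 1) * ζ = 1 / 2 := by
      rw [← hB, hζ]
      field_simp
    rw [h2] at h1
    linarith
  · set C0 : ℝ := (L + 1) * (2 : ℝ) ^ L * (m + 1) * ((2 : ℝ) ^ (L + 1) * g) ^ m with hC0
    have hC00 : 0 < C0 := by positivity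
    set t : ℝ := ζ ^ m / (m.factorial : ℝ) / 16 with ht
    have ht0 : 0 < t := by
      have : (0 : ℝ) < m.factorial := by exact_mod_cast Nat.factorial_pos m
      positivity
    refine ⟨⌈C0 / t⌉₊ + 1, fun k hk => ?_⟩
    have hk1 : 1 ≤ k := by omega
    have hkR : (1 : ℝ) ≤ k := by exact_mod_cast hk1
    have hk0 : (0 : ℝ) < k := by linarith
    have hkC : C0 / t ≤ k := by
      have h1 : C0 / t ≤ (⌈C0 / t⌉₊ : ℝ) := Nat.le_ceil _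
      have h2 : ((⌈C0 / t⌉₊ : ℕ) : ℝ) ≤ k := by exact_mod_cast (by omega : ⌈C0 / t⌉₊ ≤ k)
      exact h1.trans h2
    have h1 : (L + 1) * (k : ℝ) ^ D *
        ((2 : ℝ) ^ L * (k : ℝ) ^ L * ((m + 1) * ((2 : ℝ) ^ (L + 1) * (1 / (k : ℝ) ^ 20) *
          (k * g)) ^ m)) = C0 * ((k : ℝ) ^ (D + L) / (k : ℝ) ^ (19 * m)) := by
      have h2 : (2 : ℝ) ^ (L + 1) * (1 / (k : ℝ) ^ 20) * (k * g) =
          ((2 : ℝ) ^ (L + 1) * g) / (k : ℝ) ^ 19 := by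
        field_simp
      rw [h2, div_pow, hC0, pow_add, pow_mul (k : ℝ) 19 m]
      ring
    rw [h1]
    have h3 : (k : ℝ) ^ (D + L) / (k : ℝ) ^ (19 * m) ≤ 1 / k := by
      rw [div_le_div_iff₀ (by positivity) hk0, one_mul, ← pow_succ]
      exact pow_le_pow_right₀ hkR (by omega)
    calc C0 * ((k : ℝ) ^ (D + L) / (k : ℝ) ^ (19 * m)) ≤ C0 * (1 / k) :=
          mul_le_mul_of_nonneg_left h3 hC00.le
      _ = C0 / k := by ring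
      _ ≤ t := by
          rw [div_le_iff₀ hk0]
          rw [div_le_iff₀ ht0] at hkC
          linarith

end Pool.Agent.H86.AT
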