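import Pool.Agent.H67.AT.Targets
import Pool.Agent.H67.AT.Ser

/-!
# Part B (MP_81fcf0_co), row QNN: nonnegativity of the series, constant coefficient one
-/

set_option autoImplicit false

open Finset PowerSeries Pool.Agent.H67.AT

namespace Pool.Agent.H86.AT

theorem c0_smul (c : ℝ) (F : DS) : coeff 0 (c • F).fst = c * coeff 0 F.fst := by
  rw [TrivSqZeroExt.fst_smul]
  simp

theorem c0_sum {ι : Type*} (s : Finset ι) (F : ι → DS) :
    coeff 0 (∑ i ∈ s, F i).fst = ∑ i ∈ s, coeff 0 (F i).fst := by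
  rw [fst_sum, map_sum]

theorem c0_prod {ι : Type*} (s : Finset ι) (F : ι → DS) :
    coeff 0 (∏ i ∈ s, F i).fst = ∏ i ∈ s, coeff 0 (F i).fst := by
  rw [fst_prod]
  simp only [coeff_zero_eq_constantCoeff]
  rw [map_prod]

theorem c0_dbl (F : DS) : coeff 0 (dbl F).fst = coeff 0 F.fst := by
  rw [fst_dbl, coeff_dblp, if_pos rfl]

theorem P_nonneg {X E Y : Type} [Fintype X] [DecidableEq X] [Fintype E] [DecidableEq Y]
    (G : Net X E Y) (n : ℕ) : ∀ x z, 0 ≤ (G.P ^ n) x z := by
  have h1 : ∀ x z, 0 ≤ G.P x z := by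
    intro x z
    unfold Net.P
    rw [Matrix.of_apply]
    refine Finset.sum_nonneg fun e _ => ?_
    split_ifs
    · exact G.nonneg e
    · exact le_rfl
  induction n with
  | zero =>
    intro x z
    rw [pow_zero, Matrix.one_apply]
    split_ifs <;> norm_num
  | succ n ih =>
    intro x z
    rw [pow_succ, Matrix.mul_apply]
    exact Finset.sum_nonneg fun w _ => mul_nonneg (ih _ _) (h1 _ _)

theorem mu_nonneg {X E Y : Type} [Fintype X] [DecidableEq X] [Fintype E] [DecidableEq Y]
    (G : Net X E Y) (k l : ℕ) (x x' : X) (s : Fin (k + 1) → X) : 0 ≤ mu G k l x x' s := by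
  unfold mu skw
  split_ifs
  · exact div_nonneg (Finset.prod_nonneg fun i _ => P_nonneg G _ _ _) (P_nonneg G _ _ _)
  · exact le_rfl

theorem mu0_nonneg {X E Y : Type} [Fintype X] [DecidableEq X] [Fintype E] [DecidableEq Y]
    (G : Net X E Y) (x x' : X) (e : E) : 0 ≤ mu0 G x x' e := by
  unfold mu0
  split_ifs
  · refine div_nonneg (G.nonneg e) ?_
    have h := P_nonneg G 1 x x'
    rwa [pow_one] at h
  · exact le_rfl

theorem pf_QNN (hMU1 : T_MU1) (hMU0 : T_MU0) : T_QNN := by
  intro X E Y _ _ _ _ _ _ G k a mk ha hmk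
  constructor
  · intro l
    induction l with
    | zero =>
      intro x x'
      unfold qs
      exact (DNn.dbl (DNn.sum fun e _ => (ha e).smul (mu0_nonneg G x x' e))).add (hmk 0 x x')
    | succ l ih =>
      intro x x'
      unfold qs
      exact (DNn.dbl (DNn.sum fun s _ => (DNn.prod fun i _ => ih _ _).smul
        (mu_nonneg G k l x x' s))).add (hmk (l + 1) x x')
  · intro h1 h0 l
    induction l with
    | zero =>
      intro x x' hx
      rw [pow_zero, pow_one] at hx
      unfold qs
      rw [TrivSqZeroExt.fst_add, map_add, h0, add_zero, c0_dbl, c0_sum]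
      simp only [c0_smul, h1, mul_one]
      exact (hMU0 X E Y G x x' hx).1
    | succ l ih =>
      intro x x' hx
      obtain ⟨hs1, hs2⟩ := hMU1 X E Y G k l x x' hx
      unfold qs
      rw [TrivSqZeroExt.fst_add, map_add, h0, add_zero, c0_dbl, c0_sum, ← hs1]
      refine Finset.sum_congr rfl fun s _ => ?_
      rw [c0_smul, c0_prod]
      rcases (hs2 s).1.lt_or_eq with hpos | hzero
      · obtain ⟨-, -, hp⟩ := (hs2 s).2 hpos
        rw [Finset.prod_eq_one fun i _ => ih _ _ (hp i), mul_one]
      · rw [← hzero, zero_mul]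

end Pool.Agent.H86.AT
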