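import Pool.Agent.H67.AT.Targets
import Pool.Agent.H67.AT.Ser

/-!
# Part B (MP_81fcf0_co), row SV0: the last stage is valid
-/

set_option autoImplicit false

open Finset PowerSeries Pool.Agent.H67.AT

namespace Pool.Agent.H86.AT

theorem rhoE_nonneg {X E Y : Type} [Fintype X] [DecidableEq X] [Fintype E] [DecidableEq Y]
    (G : Net X E Y) (e : E) (y : Y) : 0 ≤ rhoE G e y := by
  unfold rhoE
  split_ifs <;> norm_num

theorem rhoE_sum {X E Y : Type} [Fintype X] [DecidableEq X] [Fintype E] [Fintype Y]
    [DecidableEq Y] (G : Net X E Y) (e : E) : ∑ y, rhoE G e y ≤ 1 := by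
  unfold rhoE
  cases h : G.lt e with
  | none => simp
  | some y =>
    have h1 : ∀ y' : Y, (if (some y : Option Y) = some y' then (1 : ℝ) else 0) =
        if y = y' then 1 else 0 := by
      intro y'
      by_cases h2 : y = y'
      · rw [if_pos (by rw [h2]), if_pos h2]
      · rw [if_neg (fun h3 => h2 (Option.some.inj h3)), if_neg h2]
    simp only [h1]
    rw [Finset.sum_ite_eq, if_pos (Finset.mem_univ _)]

theorem pf_SV0 (hMU0 : T_MU0) (hRTU : T_RTU) : T_SV0 := by
  intro X E Y _ _ _ _ _ _ G k L g β η good hβ hg hG N ω hω hpair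
  have hpos : ∀ j < N, 0 < G.P (ω j) (ω (j + 1)) := by
    intro j hj
    have h := hG.pos 0 (Nat.zero_le L) _ _ (hω j hj)
    rwa [pow_zero, pow_one] at h
  have hR := fun (x x' : X) (y : Y) => hRTU X E Y G k good β 0 x x' y hβ
  exact
    { nn := fun j hj e => (hMU0 X E Y G _ _ (hpos j hj)).2.1 e
      one := fun j hj => (hMU0 X E Y G _ _ (hpos j hj)).1
      nnB := fun j _ y => (hR _ _ y).1
      nnC := fun e _ y => rhoE_nonneg G e y
      rt_le := by
        intro j hj y
        have h1 := (hMU0 X E Y G _ _ (hpos j hj)).2.2.2 y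
        have h2 := (hR (ω j) (ω (j + 1)) y).2.2.2.2 (hω j hj)
        rw [pow_zero] at h2
        have h3 : (stg0 G k good β N ω).rt j y =
            ∑ e, mu0 G (ω j) (ω (j + 1)) e * rhoE G e y := by
          unfold Stage.rt
          refine Finset.sum_congr rfl fun e _ => ?_
          congr 1
          exact Fin.sum_univ_one _
        rw [h3, h1]
        exact h2
      gB := fun j hj => hG.mass 0 (Nat.zero_le L) _ _ (hω j hj)
      gC := fun e _ _ => (rhoE_sum G e).trans hg
      sib := fun _ _ i i' h => absurd (Subsingleton.elim (α := Fin 1) i i') h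
      fail := by
        intro j _
        refine le_trans (le_of_eq (Finset.sum_eq_zero fun r _ => ?_)) (by norm_num : (0:ℝ) ≤ 1 / 4)
        exact if_pos trivial
      pair := hpair }

end Pool.Agent.H86.AT
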